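import Pool.Agent.Run7.h172.Par.All3

/-! # Project PAR: the law of the large local frequencies is uniform -/

set_option autoImplicit false

namespace Pool.Agent.Run7.h172.Par

open Finset MeasureTheory

theorem main1au : S_MAIN1AU := Run7.h842.Par.t_MAIN1AU (onep tk Pool.Agent.Run7.h194.Par.t_DN vb) cov vb (Pool.Agent.Run7.h915.Par.sv vb) sumsu'
where sumsu' : S_SUMSU := sumsu

variable {r : ℕ}

lemma V_add' {f : Fin r → ℕ → ℂ} {c : Fin r → ℤ} {n H : ℕ} (hG : Continuous (G f c n H)) {φ ψ : ℝ → ℝ} (hφ : Continuous φ)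
    (hψ : Continuous ψ) : V f c n H (fun x => φ x + ψ x) = V f c n H φ + V f c n H ψ := by
  unfold V
  have c1 : Continuous fun x => G f c n H x * φ x := hG.mul hφ
  have c2 : Continuous fun x => G f c n H x * ψ x := hG.mul hψ
  have h1 := intervalIntegral.integral_add (μ := volume) (c1.intervalIntegrable 0 1) (c2.intervalIntegrable 0 1)
  rw [← mul_add, ← h1]
  congr 1
  exact intervalIntegral.integral_congr fun x _ => by simp only; ring

lemma V_mul' {f : Fin r → ℕ → ℂ} {c : Fin r → ℤ} {n H : ℕ} (a : ℝ) (φ : ℝ → ℝ) :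
    V f c n H (fun x => a * φ x) = a * V f c n H φ := by
  unfold V
  have : ∀ x, G f c n H x * (a * φ x) = a * (G f c n H x * φ x) := fun x => by ring
  simp only [this]
  rw [intervalIntegral.integral_const_mul]
  ring

/-- the defect -/
noncomputable def Df (f : Fin r → ℕ → ℂ) (c : Fin r → ℤ) (N H : ℕ) (φ : ℝ → ℝ) : ℝ :=
  NV f c N H φ - (∫ x in (0 : ℝ)..1, φ x) * NV f c N H (fun _ => 1)

lemma NV_add' {f : Fin r → ℕ → ℂ} {c : Fin r → ℤ} {H : ℕ} (hG : ∀ n, Continuous (G f c n H)) (N : ℕ) {φ ψ : ℝ → ℝ}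
    (hφ : Continuous φ) (hψ : Continuous ψ) :
    NV f c N H (fun x => φ x + ψ x) = NV f c N H φ + NV f c N H ψ := by
  unfold NV
  rw [← mul_add, ← sum_add_distrib]
  congr 1
  exact sum_congr rfl fun n _ => V_add' (hG n) hφ hψ

lemma NV_mul' {f : Fin r → ℕ → ℂ} {c : Fin r → ℤ} {H : ℕ} (N : ℕ) (a : ℝ) (φ : ℝ → ℝ) :
    NV f c N H (fun x => a * φ x) = a * NV f c N H φ := by
  unfold NV
  have h1 : ∑ n ∈ Icc 1 N, V f c n H (fun x => a * φ x) = a * ∑ n ∈ Icc 1 N, V f c n H φ := by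
    rw [mul_sum]
    exact sum_congr rfl fun n _ => V_mul' a φ
  rw [h1]
  ring

lemma Df_add {f : Fin r → ℕ → ℂ} {c : Fin r → ℤ} {H : ℕ} (hG : ∀ n, Continuous (G f c n H)) (N : ℕ) {φ ψ : ℝ → ℝ}
    (hφ : Continuous φ) (hψ : Continuous ψ) : Df f c N H (fun x => φ x + ψ x) = Df f c N H φ + Df f c N H ψ := by
  unfold Df
  rw [NV_add' hG N hφ hψ, intervalIntegral.integral_add (hφ.intervalIntegrable _ _) (hψ.intervalIntegrable _ _)]
  ring

lemma Df_mul {f : Fin r → ℕ → ℂ} {c : Fin r → ℤ} {H : ℕ} (N : ℕ) (a : ℝ) (φ : ℝ → ℝ) :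
    Df f c N H (fun x => a * φ x) = a * Df f c N H φ := by
  unfold Df
  rw [NV_mul', intervalIntegral.integral_const_mul]
  ring

lemma Df_zero {f : Fin r → ℕ → ℂ} {c : Fin r → ℤ} {H : ℕ} (N : ℕ) : Df f c N H (fun _ => 0) = 0 := by
  have := Df_mul (f := f) (c := c) (H := H) N 0 (fun _ => 0)
  simpa using this

lemma Df_sum {f : Fin r → ℕ → ℂ} {c : Fin r → ℤ} {H : ℕ} (hG : ∀ n, Continuous (G f c n H)) (N : ℕ) (S : Finset ℤ)
    (φ : ℤ → ℝ → ℝ) (hφ : ∀ k, Continuous (φ k)) :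
    Df f c N H (fun x => ∑ k ∈ S, φ k x) = ∑ k ∈ S, Df f c N H (φ k) := by
  classical
  induction S using Finset.induction_on with
  | empty => simpa using Df_zero N
  | insert k S hk ih =>
    simp only [sum_insert hk]
    rw [Df_add hG N (hφ k) (continuous_finsetSum _ fun k _ => hφ k), ih]

lemma int_cos (k : ℤ) (hk : k ≠ 0) : ∫ x in (0 : ℝ)..1, Real.cos (2 * Real.pi * (k * x)) = 0 := by
  have h0 : 2 * Real.pi * (k : ℝ) ≠ 0 := by
    have : (k : ℝ) ≠ 0 := by exact_mod_cast hk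
    have := Real.pi_ne_zero
    positivity
  have h1 : ∀ x : ℝ, Real.cos (2 * Real.pi * (k * x)) = Real.cos ((2 * Real.pi * k) * x) := fun x => by ring_nf
  simp only [h1]
  rw [intervalIntegral.integral_comp_mul_left (fun x => Real.cos x) h0, integral_cos]
  have h2 : Real.sin (2 * Real.pi * k * 1) = 0 := by
    have := Real.sin_int_mul_pi (2 * k)
    push_cast at this
    rw [← this]
    congr 1
    ring
  rw [h2]
  simp

lemma int_sin (k : ℤ) (hk : k ≠ 0) : ∫ x in (0 : ℝ)..1, Real.sin (2 * Real.pi * (k * x)) = 0 := by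
  have h0 : 2 * Real.pi * (k : ℝ) ≠ 0 := by
    have : (k : ℝ) ≠ 0 := by exact_mod_cast hk
    have := Real.pi_ne_zero
    positivity
  have h1 : ∀ x : ℝ, Real.sin (2 * Real.pi * (k * x)) = Real.sin ((2 * Real.pi * k) * x) := fun x => by ring_nf
  simp only [h1]
  rw [intervalIntegral.integral_comp_mul_left (fun x => Real.sin x) h0, integral_sin]
  have h2 : Real.cos (2 * Real.pi * k * 1) = 1 := by
    have := Real.cos_int_mul_two_pi k
    rwa [show 2 * Real.pi * (k : ℝ) * 1 = k * (2 * Real.pi) by ring]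
  rw [h2]
  simp

/-- approximation by trigonometric polynomials -/
lemma trig_approx (φ : C(UnitAddCircle, ℝ)) (ε : ℝ) (hε : 0 < ε) : ∃ (S : Finset ℤ) (α β : ℤ → ℝ), ∀ x : ℝ,
    |φ (x : UnitAddCircle) - ∑ k ∈ S, (α k * Real.cos (2 * Real.pi * (k * x)) + β k * Real.sin (2 * Real.pi * (k * x)))| ≤ ε := by
  let φC : C(UnitAddCircle, ℂ) := ⟨fun z => ((φ z : ℝ) : ℂ), Complex.continuous_ofReal.comp φ.continuous⟩
  have h1 : φC ∈ (Submodule.span ℂ (Set.range (@fourier 1))).topologicalClosure := by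
    rw [span_fourier_closure_eq_top]
    exact Submodule.mem_top
  have h2 : φC ∈ closure (Submodule.span ℂ (Set.range (@fourier 1)) : Set C(UnitAddCircle, ℂ)) := h1
  rw [Metric.mem_closure_iff] at h2
  obtain ⟨P, hP, hd⟩ := h2 ε hε
  rw [SetLike.mem_coe, Finsupp.mem_span_range_iff_exists_finsupp] at hP
  obtain ⟨a, rfl⟩ := hP
  refine ⟨a.support, fun k => (a k).re, fun k => -(a k).im, fun x => ?_⟩
  have h3 : ‖φC (x : UnitAddCircle) - (a.sum fun k z => z • (fourier k : C(UnitAddCircle, ℂ))) (x : UnitAddCircle)‖ ≤ ε := by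
    rw [← dist_eq_norm]
    exact (ContinuousMap.dist_apply_le_dist _).trans hd.le
  have h4 : (a.sum fun k z => z • (fourier k : C(UnitAddCircle, ℂ))) (x : UnitAddCircle) =
      ∑ k ∈ a.support, a k * fourier k (x : UnitAddCircle) := by
    rw [Finsupp.sum, ContinuousMap.sum_apply]
    rfl
  rw [h4] at h3
  have h5 := (Complex.abs_re_le_norm _).trans h3
  rw [Complex.sub_re, Complex.re_sum] at h5
  refine le_trans (le_of_eq ?_) h5
  congr 1
  show φ (x : UnitAddCircle) - _ = ((φ (x : UnitAddCircle) : ℝ) : ℂ).re - _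
  rw [Complex.ofReal_re]
  congr 1
  refine sum_congr rfl fun k _ => ?_
  rw [fourier_coe_apply]
  have h6 : Complex.exp (2 * Real.pi * Complex.I * k * x / (1 : ℝ)) =
      Complex.exp (((2 * Real.pi * (k * x) : ℝ) : ℂ) * Complex.I) := by
    congr 1
    push_cast
    ring
  rw [h6, Complex.mul_re, Complex.exp_ofReal_mul_I_re, Complex.exp_ofReal_mul_I_im]
  ring

/-- **the law of the large frequencies** -/
theorem llf (hr : 2 ≤ r) (c : Fin r → ℤ) (hc : ∀ i, c i ≠ 0) (i₀ : Fin r) (g : ℕ → ℂ) (hg : S_NRT g)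
    (φ : C(UnitAddCircle, ℝ)) (ε : ℝ) (hε : 0 < ε) : ∃ Z₀ : ℕ, ∀ f : Fin r → ℕ → ℂ, (∀ i, Mul1 (f i)) → f i₀ = g →
    ∀ Z : ℕ, Z₀ ≤ Z → ∀ X : ℕ, Z ≤ X →
    ∑ H ∈ Icc 1 Z, (1 / (H : ℝ)) * ∑ N ∈ Icc 1 X, (1 / (N : ℝ)) * |Df f c N H (fun x => φ (x : UnitAddCircle))| ≤
      ε * ((1 + Real.log X) * (1 + Real.log Z)) := by
  classical
  obtain ⟨S, α, β, hS⟩ := trig_approx φ (ε / 4) (by positivity)
  set M : ℝ := ∑ k ∈ S, (|α k| + |β k|) + 1 with hM
  have hM0 : 0 < M := by
    have : 0 ≤ ∑ k ∈ S, (|α k| + |β k|) := sum_nonneg fun _ _ => by positivity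
    linarith
  have h1 : ∀ k : ℤ, ∃ Z₀ : ℕ, k ≠ 0 → ∀ f : Fin r → ℕ → ℂ, (∀ i, Mul1 (f i)) → f i₀ = g →
      ∀ Z : ℕ, Z₀ ≤ Z → ∀ X : ℕ, Z ≤ X →
      ∑ H ∈ Icc 1 Z, (1 / (H : ℝ)) * ∑ N ∈ Icc 1 X, (1 / (N : ℝ)) *
          |NV f c N H (fun x => Real.cos (2 * Real.pi * (k * x)))| ≤ (ε / (2 * M)) * ((1 + Real.log X) * (1 + Real.log Z)) ∧
      ∑ H ∈ Icc 1 Z, (1 / (H : ℝ)) * ∑ N ∈ Icc 1 X, (1 / (N : ℝ)) *
          |NV f c N H (fun x => Real.sin (2 * Real.pi * (k * x)))| ≤ (ε / (2 * M)) * ((1 + Real.log X) * (1 + Real.log Z)) := by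
    intro k
    by_cases hk : k = 0
    · exact ⟨0, fun h => absurd hk h⟩
    · obtain ⟨Z₀, hZ⟩ := main1au r hr c hc i₀ g hg k hk (ε / (2 * M)) (by positivity)
      exact ⟨Z₀, fun _ => hZ⟩
  choose Z₀ hZ₀ using h1
  refine ⟨∑ k ∈ S, Z₀ k, fun f hf hfi Z hZ X hX => ?_⟩
  have hf1 : ∀ i m, ‖f i m‖ ≤ 1 := fun i => (hf i).1
  have hG : ∀ n H, Continuous (G f c n H) := fun n H => (vb.2 r (by omega) f c n H).1
  have hVabs := fun n H => ((vb.2 r (by omega) f c n H).2.2.2 hf1).2 hc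
  have hNVabs : ∀ (N H : ℕ) (ψ : ℝ → ℝ), Continuous ψ → ∀ B : ℝ, 0 ≤ B → (∀ x, |ψ x| ≤ B) → |NV f c N H ψ| ≤ B :=
    fun N H ψ hψ B hB h => Pool.Agent.Run7.h212.Par.MAIN1A.NV_abs hB (fun n => hVabs n H ψ hψ B h) N
  set T : ℝ → ℝ := fun x => ∑ k ∈ S, (α k * Real.cos (2 * Real.pi * (k * x)) + β k * Real.sin (2 * Real.pi * (k * x))) with hT
  have cc : ∀ k : ℤ, Continuous fun x : ℝ => Real.cos (2 * Real.pi * (k * x)) := fun k => by fun_prop
  have cs : ∀ k : ℤ, Continuous fun x : ℝ => Real.sin (2 * Real.pi * (k * x)) := fun k => by fun_prop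
  have cT : Continuous T := by
    rw [hT]
    exact continuous_finsetSum _ fun k _ => (continuous_const.mul (cc k)).add (continuous_const.mul (cs k))
  have cφ : Continuous fun x : ℝ => φ (x : UnitAddCircle) := φ.continuous.comp (AddCircle.continuous_mk' 1)
  -- pointwise bound
  have hpt : ∀ N H : ℕ, |Df f c N H (fun x => φ (x : UnitAddCircle))| ≤ ε / 2 +
      ∑ k ∈ S.filter (fun k => k ≠ 0), (|α k| * |NV f c N H (fun x => Real.cos (2 * Real.pi * (k * x)))| +
        |β k| * |NV f c N H (fun x => Real.sin (2 * Real.pi * (k * x)))|) := by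
    intro N H
    have e1 : (fun x : ℝ => φ (x : UnitAddCircle)) = fun x : ℝ => (φ (x : UnitAddCircle) - T x) + T x := by
      funext x; ring
    have cR : Continuous (fun x : ℝ => φ (x : UnitAddCircle) - T x) := cφ.sub cT
    rw [e1, Df_add (φ := fun x : ℝ => φ (x : UnitAddCircle) - T x) (ψ := T) (fun n => hG n H) N cR cT]
    refine (abs_add_le _ _).trans (add_le_add ?_ ?_)
    · -- the remainder
      unfold Df
      have h2 := hNVabs N H _ cR (ε / 4) (by positivity) hS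
      have h3 := hNVabs N H (fun _ => 1) continuous_const 1 zero_le_one (fun _ => by simp)
      have h4 : |∫ x in (0 : ℝ)..1, (fun x : ℝ => φ (x : UnitAddCircle) - T x) x| ≤ ε / 4 := by
        have := intervalIntegral.norm_integral_le_of_norm_le_const (a := (0 : ℝ)) (b := 1)
          (f := fun x : ℝ => φ (x : UnitAddCircle) - T x) (C := ε / 4) (fun x _ => hS x)
        rw [sub_zero, abs_one, mul_one] at this
        exact this
      refine (abs_sub _ _).trans ?_
      rw [abs_mul]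
      have h5 := mul_le_mul h4 h3 (abs_nonneg _) (by positivity)
      linarith
    · have ccs : ∀ k : ℤ, Continuous fun x : ℝ =>
          α k * Real.cos (2 * Real.pi * (k * x)) + β k * Real.sin (2 * Real.pi * (k * x)) := fun k => by fun_prop
      have c1 : ∀ k : ℤ, Continuous fun x : ℝ => α k * Real.cos (2 * Real.pi * (k * x)) := fun k => by fun_prop
      have c2 : ∀ k : ℤ, Continuous fun x : ℝ => β k * Real.sin (2 * Real.pi * (k * x)) := fun k => by fun_prop
      rw [hT, Df_sum (fun n => hG n H) N S (fun k x => α k * Real.cos (2 * Real.pi * (k * x)) +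
        β k * Real.sin (2 * Real.pi * (k * x))) ccs]
      rw [sum_filter]
      refine (abs_sum_le_sum_abs _ _).trans (sum_le_sum fun k _ => ?_)
      rw [Df_add (φ := fun x : ℝ => α k * Real.cos (2 * Real.pi * (k * x)))
        (ψ := fun x : ℝ => β k * Real.sin (2 * Real.pi * (k * x))) (fun n => hG n H) N (c1 k) (c2 k), Df_mul, Df_mul]
      split_ifs with hk
      · have e2 : Df f c N H (fun x => Real.cos (2 * Real.pi * (k * x))) =
            NV f c N H (fun x => Real.cos (2 * Real.pi * (k * x))) := by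
          unfold Df; rw [int_cos k hk, zero_mul, sub_zero]
        have e3 : Df f c N H (fun x => Real.sin (2 * Real.pi * (k * x))) =
            NV f c N H (fun x => Real.sin (2 * Real.pi * (k * x))) := by
          unfold Df; rw [int_sin k hk, zero_mul, sub_zero]
        rw [e2, e3]
        refine (abs_add_le _ _).trans ?_
        rw [abs_mul, abs_mul]
      · have hk0 : k = 0 := by simpa using hk
        have e2 : (fun x : ℝ => Real.cos (2 * Real.pi * ((k : ℤ) * x))) = fun _ => 1 := by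
          funext x; rw [hk0]; simp
        have e3 : (fun x : ℝ => Real.sin (2 * Real.pi * ((k : ℤ) * x))) = fun _ => 0 := by
          funext x; rw [hk0]; simp
        rw [e2, e3, Df_zero]
        have e4 : Df f c N H (fun _ => 1) = 0 := by
          unfold Df; simp
        rw [e4]
        simp
  have hharm : ∀ M : ℕ, ∑ n ∈ Icc 1 M, 1 / (n : ℝ) ≤ 1 + Real.log M := Pool.Agent.Run7.h136.Par.harm_le
  have hlX : 0 ≤ Real.log (X : ℝ) := Real.log_natCast_nonneg X
  have hlZ : 0 ≤ Real.log (Z : ℝ) := Real.log_natCast_nonneg Z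
  calc ∑ H ∈ Icc 1 Z, (1 / (H : ℝ)) * ∑ N ∈ Icc 1 X, (1 / (N : ℝ)) * |Df f c N H (fun x => φ (x : UnitAddCircle))| ≤
      ∑ H ∈ Icc 1 Z, (1 / (H : ℝ)) * ∑ N ∈ Icc 1 X, (1 / (N : ℝ)) * (ε / 2 +
      ∑ k ∈ S.filter (fun k => k ≠ 0), (|α k| * |NV f c N H (fun x => Real.cos (2 * Real.pi * (k * x)))| +
        |β k| * |NV f c N H (fun x => Real.sin (2 * Real.pi * (k * x)))|)) := by
        refine sum_le_sum fun H _ => mul_le_mul_of_nonneg_left (sum_le_sum fun N _ => ?_) (by positivity)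
        exact mul_le_mul_of_nonneg_left (hpt N H) (by positivity)
    _ = ε / 2 * ((∑ N ∈ Icc 1 X, 1 / (N : ℝ)) * ∑ H ∈ Icc 1 Z, 1 / (H : ℝ)) +
        ∑ k ∈ S.filter (fun k => k ≠ 0), (|α k| * (∑ H ∈ Icc 1 Z, (1 / (H : ℝ)) * ∑ N ∈ Icc 1 X, (1 / (N : ℝ)) *
          |NV f c N H (fun x => Real.cos (2 * Real.pi * (k * x)))|) +
        |β k| * (∑ H ∈ Icc 1 Z, (1 / (H : ℝ)) * ∑ N ∈ Icc 1 X, (1 / (N : ℝ)) *
          |NV f c N H (fun x => Real.sin (2 * Real.pi * (k * x)))|)) := by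
        have e1 : ∀ H ∈ Icc 1 Z, (1 / (H : ℝ)) * ∑ N ∈ Icc 1 X, (1 / (N : ℝ)) * (ε / 2 +
            ∑ k ∈ S.filter (fun k => k ≠ 0), (|α k| * |NV f c N H (fun x => Real.cos (2 * Real.pi * (k * x)))| +
              |β k| * |NV f c N H (fun x => Real.sin (2 * Real.pi * (k * x)))|)) =
            ε / 2 * (∑ N ∈ Icc 1 X, 1 / (N : ℝ)) * (1 / (H : ℝ)) +
            ∑ k ∈ S.filter (fun k => k ≠ 0), (|α k| * ((1 / (H : ℝ)) * ∑ N ∈ Icc 1 X, (1 / (N : ℝ)) *
              |NV f c N H (fun x => Real.cos (2 * Real.pi * (k * x)))|) +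
              |β k| * ((1 / (H : ℝ)) * ∑ N ∈ Icc 1 X, (1 / (N : ℝ)) *
              |NV f c N H (fun x => Real.sin (2 * Real.pi * (k * x)))|)) := by
          intro H _
          simp only [mul_add, sum_add_distrib, mul_sum]
          congr 1
          · rw [sum_mul]
            exact sum_congr rfl fun N _ => by ring
          · rw [sum_comm]
            congr 1
            · exact sum_congr rfl fun k _ => sum_congr rfl fun N _ => by ring
            · rw [sum_comm]
              exact sum_congr rfl fun k _ => sum_congr rfl fun N _ => by ring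
        rw [sum_congr rfl e1, sum_add_distrib, sum_comm, ← mul_sum]
        congr 1
        · ring
        · refine sum_congr rfl fun k _ => ?_
          rw [sum_add_distrib, ← mul_sum, ← mul_sum]
    _ ≤ ε / 2 * ((1 + Real.log X) * (1 + Real.log Z)) +
        ∑ k ∈ S.filter (fun k => k ≠ 0), (|α k| + |β k|) * ((ε / (2 * M)) * ((1 + Real.log X) * (1 + Real.log Z))) := by
        refine add_le_add ?_ (sum_le_sum fun k hk => ?_)
        · refine mul_le_mul_of_nonneg_left ?_ (by positivity)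
          exact mul_le_mul (hharm X) (hharm Z) (sum_nonneg fun _ _ => by positivity) (by linarith)
        · rw [mem_filter] at hk
          have hZk : Z₀ k ≤ Z := (single_le_sum (fun _ _ => Nat.zero_le _) hk.1).trans hZ
          obtain ⟨a1, a2⟩ := hZ₀ k hk.2 f hf hfi Z hZk X hX
          rw [add_mul]
          exact add_le_add (mul_le_mul_of_nonneg_left a1 (abs_nonneg _)) (mul_le_mul_of_nonneg_left a2 (abs_nonneg _))
    _ ≤ ε / 2 * ((1 + Real.log X) * (1 + Real.log Z)) + M * ((ε / (2 * M)) * ((1 + Real.log X) * (1 + Real.log Z))) := by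
        rw [← sum_mul]
        refine add_le_add le_rfl (mul_le_mul_of_nonneg_right ?_ (by positivity))
        have : ∑ k ∈ S.filter (fun k => k ≠ 0), (|α k| + |β k|) ≤ ∑ k ∈ S, (|α k| + |β k|) :=
          sum_le_sum_of_subset_of_nonneg (filter_subset _ _) fun _ _ _ => by positivity
        linarith
    _ = ε * ((1 + Real.log X) * (1 + Real.log Z)) := by
        field_simp
        ring

end Pool.Agent.Run7.h172.Par
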